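import Pool.Agent.K1H88.GT.Stm

/-!
Project GT: piece UNI, the union bound over a grid for a family of sequences.
-/

set_option autoImplicit false

namespace Pool.Agent.K1H40.GT

open Finset MeasureTheory Pool.Agent.K1H88.GT

lemma a_norm {a : ℕ → ℂ} (ha : ∀ n, ‖a n‖ ^ 2 = if Squarefree n then 1 else 0) (n : ℕ) : ‖a n‖ ≤ 1 := by
  have h := ha n
  have h1 : ‖a n‖ ^ 2 ≤ 1 := by
    rw [h]; split_ifs <;> norm_num
  nlinarith [norm_nonneg (a n)]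

lemma ZZ_bound {a : ℕ → ℂ} (ha : ∀ n, ‖a n‖ ≤ 1) (U1 U2 j : ℕ) :
    ‖ZZ a U1 U2 j‖ ≤ ((U2 - U1 : ℕ) : ℝ) * j := by
  unfold ZZ
  calc ‖∑ u ∈ Ico U1 U2, (starRingEnd ℂ) (a (u + j + 1)) * DD a u j‖
      ≤ ∑ u ∈ Ico U1 U2, ‖(starRingEnd ℂ) (a (u + j + 1)) * DD a u j‖ := norm_sum_le _ _
    _ ≤ ∑ u ∈ Ico U1 U2, (j : ℝ) := by
        refine Finset.sum_le_sum fun u _ => ?_
        rw [norm_mul, RCLike.norm_conj]
        have h1 := ha (u + j + 1)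
        have h2 : ‖DD a u j‖ ≤ j := by
          unfold DD
          calc ‖∑ n ∈ Ioc u (u + j), a n‖ ≤ ∑ n ∈ Ioc u (u + j), ‖a n‖ := norm_sum_le _ _
            _ ≤ ∑ n ∈ Ioc u (u + j), (1 : ℝ) := Finset.sum_le_sum fun n _ => ha n
            _ = j := by simp
        calc ‖a (u + j + 1)‖ * ‖DD a u j‖ ≤ 1 * j :=
              mul_le_mul h1 h2 (norm_nonneg _) zero_le_one
          _ = j := one_mul _
    _ = _ := by rw [Finset.sum_const, Nat.card_Ico, nsmul_eq_mul]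

lemma QQ_nonneg (a : ℕ → ℂ) (U1 U2 J : ℕ) : 0 ≤ QQ a U1 U2 J :=
  Finset.sum_nonneg fun _ _ => by positivity

lemma harm (J : ℕ) : ∑ j ∈ Icc 1 J, (1 : ℝ) / j ≤ 1 + Real.log J := by
  have h := harmonic_le_one_add_log J
  have h2 : ((harmonic J : ℚ) : ℝ) = ∑ j ∈ Icc 1 J, (1 : ℝ) / j := by
    rw [harmonic_eq_sum_Icc]
    push_cast
    simp
  rwa [h2] at h

section
variable {Ω : Type} [MeasurableSpace Ω] {ν : Measure Ω} [IsFiniteMeasure ν] {a : Ω → ℕ → ℂ}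

lemma meas_ZZ (hm : ∀ n, Measurable (fun ω => a ω n)) (U1 U2 j : ℕ) :
    Measurable fun ω => ZZ (a ω) U1 U2 j := by
  unfold ZZ DD
  exact Finset.measurable_sum _ fun u _ => (Complex.continuous_conj.measurable.comp (hm _)).mul
    (Finset.measurable_sum _ fun n _ => hm n)

lemma int_ZZ (hm : ∀ n, Measurable (fun ω => a ω n)) (ha : ∀ ω n, ‖a ω n‖ ≤ 1) (U1 U2 j : ℕ) :
    Integrable (fun ω => ‖ZZ (a ω) U1 U2 j‖ ^ 2) ν := by
  refine Integrable.of_bound ((meas_ZZ hm U1 U2 j).norm.pow_const 2).aestronglyMeasurable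
    ((((U2 - U1 : ℕ) : ℝ) * j) ^ 2) (Filter.Eventually.of_forall fun ω => ?_)
  rw [norm_pow, norm_norm]
  exact pow_le_pow_left₀ (norm_nonneg _) (ZZ_bound (ha ω) U1 U2 j) 2

lemma int_QQ (hm : ∀ n, Measurable (fun ω => a ω n)) (ha : ∀ ω n, ‖a ω n‖ ≤ 1) (U1 U2 J : ℕ) :
    Integrable (fun ω => QQ (a ω) U1 U2 J) ν := by
  unfold QQ
  exact integrable_finsetSum _ fun j _ => (int_ZZ hm ha U1 U2 j).div_const _

lemma moment (hm : ∀ n, Measurable (fun ω => a ω n)) (ha : ∀ ω n, ‖a ω n‖ ≤ 1)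
    {W : ℝ} {U1 U2 J N : ℕ} (h12 : U1 ≤ U2) (hUN : U2 ≤ 6 * N)
    (hMOM : ∀ U1 U2 j : ℕ, U1 ≤ U2 → U2 ≤ 6 * N → 1 ≤ j → j ≤ J →
      ∫ ω, ‖ZZ (a ω) U1 U2 j‖ ^ 2 ∂ν ≤ W) (hW : 0 ≤ W) :
    ∫ ω, QQ (a ω) U1 U2 J ∂ν ≤ (1 + Real.log J) * W := by
  unfold QQ
  rw [integral_finsetSum _ fun j _ => (int_ZZ hm ha U1 U2 j).div_const _]
  calc ∑ j ∈ Icc 1 J, ∫ ω, ‖ZZ (a ω) U1 U2 j‖ ^ 2 / j ∂ν
      ≤ ∑ j ∈ Icc 1 J, (1 / (j : ℝ)) * W := by
        refine Finset.sum_le_sum fun j hj => ?_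
        rw [Finset.mem_Icc] at hj
        have hj1 : (1 : ℝ) ≤ j := by exact_mod_cast hj.1
        rw [integral_div, one_div, inv_mul_eq_div]
        exact div_le_div_of_nonneg_right (hMOM U1 U2 j h12 hUN hj.1 hj.2) (by linarith)
    _ ≤ _ := by
        rw [← Finset.sum_mul]
        exact mul_le_mul_of_nonneg_right (harm J) hW

lemma markov (hm : ∀ n, Measurable (fun ω => a ω n)) (ha : ∀ ω n, ‖a ω n‖ ≤ 1)
    {W L : ℝ} {U1 U2 J N : ℕ} (h12 : U1 ≤ U2) (hUN : U2 ≤ 6 * N)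
    (hMOM : ∀ U1 U2 j : ℕ, U1 ≤ U2 → U2 ≤ 6 * N → 1 ≤ j → j ≤ J →
      ∫ ω, ‖ZZ (a ω) U1 U2 j‖ ^ 2 ∂ν ≤ W) (hW : 0 ≤ W) (hL : 0 < L) :
    ν.real {ω | L ^ 2 < QQ (a ω) U1 U2 J} ≤ (1 + Real.log J) * W / L ^ 2 := by
  rw [le_div_iff₀ (by positivity), mul_comm]
  refine le_trans ?_ (moment hm ha h12 hUN hMOM hW)
  refine le_trans ?_ (mul_meas_ge_le_integral_of_nonneg
    (Filter.Eventually.of_forall fun ω => QQ_nonneg _ U1 U2 J) (int_QQ hm ha U1 U2 J) (L ^ 2))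
  refine mul_le_mul_of_nonneg_left ?_ (by positivity)
  exact measureReal_mono (fun ω (hω : L ^ 2 < _) => hω.le) (measure_ne_top ν _)

/-- the exceptional set at one scale -/
def Bad (a : Ω → ℕ → ℂ) (N g J : ℕ) (L : ℝ) : Set Ω :=
  {ω | ∃ c b : ℕ, c ≤ b ∧ b * g ≤ 6 * N ∧ L ^ 2 < QQ (a ω) (c * g) (b * g) J}

lemma bad_card (hm : ∀ n, Measurable (fun ω => a ω n)) (ha : ∀ ω n, ‖a ω n‖ ≤ 1)
    {W L : ℝ} {N g J : ℕ}
    (hMOM : ∀ U1 U2 j : ℕ, U1 ≤ U2 → U2 ≤ 6 * N → 1 ≤ j → j ≤ J →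
      ∫ ω, ‖ZZ (a ω) U1 U2 j‖ ^ 2 ∂ν ≤ W) (hW : 0 ≤ W) (hL : 0 < L) (hg : 1 ≤ g) :
    ν.real (Bad a N g J L) ≤ (6 * N / g + 1) ^ 2 * ((1 + Real.log J) * W / L ^ 2) := by
  set K := 6 * N / g with hK
  set M := (1 + Real.log J) * W / L ^ 2 with hM
  have hlog : 0 ≤ Real.log J := Real.log_natCast_nonneg J
  have hM0 : 0 ≤ M := by positivity
  have hsub : Bad a N g J L ⊆ ⋃ p ∈ range (K + 1) ×ˢ range (K + 1),
      {ω | (p.1 ≤ p.2 ∧ p.2 * g ≤ 6 * N) ∧ L ^ 2 < QQ (a ω) (p.1 * g) (p.2 * g) J} := by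
    rintro ω ⟨c, b, hcb, hb, h⟩
    have hbK : b ≤ K := (Nat.le_div_iff_mul_le hg).2 hb
    simp only [Set.mem_iUnion]
    refine ⟨(c, b), ?_, ⟨hcb, hb⟩, h⟩
    rw [Finset.mem_product, Finset.mem_range, Finset.mem_range]
    constructor <;> dsimp only <;> omega
  calc ν.real (Bad a N g J L) ≤ ν.real (⋃ p ∈ range (K + 1) ×ˢ range (K + 1),
      {ω | (p.1 ≤ p.2 ∧ p.2 * g ≤ 6 * N) ∧ L ^ 2 < QQ (a ω) (p.1 * g) (p.2 * g) J}) :=
        measureReal_mono hsub (measure_ne_top ν _)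
    _ ≤ ∑ p ∈ range (K + 1) ×ˢ range (K + 1), ν.real
      {ω | (p.1 ≤ p.2 ∧ p.2 * g ≤ 6 * N) ∧ L ^ 2 < QQ (a ω) (p.1 * g) (p.2 * g) J} :=
        measureReal_biUnion_finset_le _ _
    _ ≤ ∑ p ∈ range (K + 1) ×ˢ range (K + 1), M := by
        refine Finset.sum_le_sum fun p _ => ?_
        by_cases h : p.1 ≤ p.2 ∧ p.2 * g ≤ 6 * N
        · refine le_trans (measureReal_mono ?_ (measure_ne_top ν _))
            (markov hm ha (Nat.mul_le_mul_right g h.1) h.2 hMOM hW hL)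
          exact fun ω hω => hω.2
        · have : {ω | (p.1 ≤ p.2 ∧ p.2 * g ≤ 6 * N) ∧
              L ^ 2 < QQ (a ω) (p.1 * g) (p.2 * g) J} = ∅ := by
            ext ω
            simp only [Set.mem_ofPred_eq, Set.mem_empty_iff_false, iff_false, not_and]
            exact fun h' => absurd h' h
          rw [this]
          simpa using hM0
    _ = ((K : ℝ) + 1) ^ 2 * M := by
        rw [Finset.sum_const, Finset.card_product, Finset.card_range, nsmul_eq_mul]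
        push_cast
        ring
    _ ≤ _ := by
        gcongr
        rw [hK]
        have := @Nat.cast_div_le ℝ _ _ _ (6 * N) g
        push_cast at this
        exact this

end

/-- **Piece UNI.** -/
theorem t_UNI (hG : S_GOOD) (hSq : ∃ C1 : ℝ, 0 ≤ C1 ∧ ∀ A B : ℕ, A ≤ B →
    |(((Ioc A B).filter (fun n => Squarefree n)).card : ℝ) - 6 / Real.pi ^ 2 * ((B : ℝ) - A)| ≤
      C1 * √(B : ℝ)) : S_UNI := by
  obtain ⟨C1, hC1, hsq⟩ := hSq
  intro κ hκ hκ1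
  obtain ⟨δ, hδ⟩ : ∃ δ : ℝ, δ = κ / 20 := ⟨_, rfl⟩
  have hδ0 : 0 < δ := by rw [hδ]; positivity
  have hδ1 : δ ≤ 1 / 20 := by rw [hδ]; linarith
  obtain ⟨C2, hC2⟩ : ∃ C2 : ℝ, C2 = 2 + 1 / (4 * δ) := ⟨_, rfl⟩
  have hC20 : 2 ≤ C2 := by
    rw [hC2]
    have : 0 < 1 / (4 * δ) := by positivity
    linarith
  refine ⟨δ, hδ0, 24 + 24 * C1 + 49 * C2, by nlinarith, ?_⟩
  intro Ω _ ν _ a hm ha N J M hN hJN hM hMOM
  have ha1 : ∀ ω n, ‖a ω n‖ ≤ 1 := fun ω n => a_norm (ha ω) n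
  have hx1 : (1 : ℝ) ≤ N := by exact_mod_cast hN
  obtain ⟨x, hx⟩ : ∃ x : ℝ, x = N := ⟨_, rfl⟩
  rw [← hx] at hx1 hMOM ⊢
  have hx0 : 0 < x := by linarith
  obtain ⟨y, hy⟩ : ∃ y : ℝ, y = x ^ δ := ⟨_, rfl⟩
  have hy1 : 1 ≤ y := by rw [hy]; exact Real.one_le_rpow hx1 hδ0.le
  have hy0 : 0 < y := by linarith
  have e2 : x ^ (2 - κ) = x ^ 2 / y ^ 20 := by
    rw [Real.rpow_sub hx0, hy, ← Real.rpow_natCast (x ^ δ), ← Real.rpow_mul hx0.le]
    have h1 : x ^ (2 : ℝ) = x ^ 2 := by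
      rw [← Real.rpow_natCast]; norm_num
    have h2 : δ * ((20 : ℕ) : ℝ) = κ := by rw [hδ]; push_cast; ring
    rw [h1, h2]
  have e4 : x ^ (-(κ / 2)) = (y ^ 10)⁻¹ := by
    rw [Real.rpow_neg hx0.le, hy, ← Real.rpow_natCast, ← Real.rpow_mul hx0.le]
    congr 2
    rw [hδ]; push_cast; ring
  have e5 : x ^ (4 * δ) = y ^ 4 := by
    rw [hy, ← Real.rpow_natCast, ← Real.rpow_mul hx0.le]; congr 1; push_cast; ring
  -- y ^ 2 ≤ √ x
  have hyx : y ^ 2 ≤ √x := by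
    rw [hy, ← Real.rpow_natCast, ← Real.rpow_mul hx0.le, Real.sqrt_eq_rpow]
    exact Real.rpow_le_rpow_of_exponent_le hx1 (by push_cast; linarith)
  have hsx : √x * √x = x := Real.mul_self_sqrt hx0.le
  have hsx1 : 1 ≤ √x := Real.one_le_sqrt.2 hx1
  have hyx2 : y ^ 2 ≤ x := by nlinarith
  have hq : 1 ≤ x / y ^ 2 := by rw [one_le_div (by positivity)]; exact hyx2
  obtain ⟨g, hg⟩ : ∃ g : ℕ, g = ⌈x / y ^ 2⌉₊ := ⟨_, rfl⟩
  have hg0 : x / y ^ 2 ≤ g := by rw [hg]; exact Nat.le_ceil _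
  have hg1' : (1 : ℝ) ≤ g := hq.trans hg0
  have hg1 : 1 ≤ g := by exact_mod_cast hg1'
  have hg2 : (g : ℝ) ≤ 2 * (x / y ^ 2) := by
    have := Nat.ceil_lt_add_one (by linarith : 0 ≤ x / y ^ 2)
    rw [← hg] at this
    linarith
  have hgN : g ≤ N := by
    rw [hg]
    apply Nat.ceil_le.2
    rw [← hx]
    exact div_le_self hx0.le (one_le_pow₀ hy1)
  obtain ⟨L, hL⟩ : ∃ L : ℝ, L = 2 * (x / y) := ⟨_, rfl⟩
  have hL0 : 0 < L := by rw [hL]; positivity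
  have hgL : (g : ℝ) ≤ L := by
    refine hg2.trans ?_
    rw [hL]
    have : y ≤ y ^ 2 := by nlinarith
    gcongr
  have hsL : √(N : ℝ) ≤ L := by
    rw [← hx, hL]
    have h1 : √x ≤ x / y := by
      rw [le_div_iff₀ hy0]
      have : y ≤ √x := by nlinarith
      nlinarith
    have h2 : 0 ≤ x / y := by positivity
    linarith
  -- the inclusion
  have hsub : {ω | ∃ X H : ℝ, x ≤ X ∧ X ≤ 2 * x ∧ 1 ≤ H ∧ H ≤ X ∧ ⌊H⌋₊ ≤ J ∧
        (24 + 24 * C1 + 49 * C2) * H * X ^ (-δ) < |VV (a ω) X H - 6 / Real.pi ^ 2 * H|} ⊆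
      Bad a N g J L := by
    rintro ω ⟨X, H, hX1, hX2, hH1, hHX, hHJ, hlt⟩
    by_contra hbad
    have hgood : ∀ c b : ℕ, c ≤ b → b * g ≤ 6 * N → QQ (a ω) (c * g) (b * g) J ≤ L ^ 2 := by
      intro c b hcb hb
      by_contra hq
      exact hbad ⟨c, b, hcb, hb, not_le.1 hq⟩
    have hX0 : 0 < X := by linarith
    have h := hG C1 hC1 hsq (a ω) (ha ω) N g J L X H hN hg1 hgN hgL hsL (by rw [← hx]; exact hX1)
      (by rw [← hx]; exact hX2) hH1 hHX hHJ hgood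
    have h1 : X * |VV (a ω) X H - 6 / Real.pi ^ 2 * H| ≤ (6 + 6 * C1) * (H * L) := by
      rw [← abs_of_pos hX0, ← abs_mul, abs_of_pos hX0]
      have : X * (VV (a ω) X H - 6 / Real.pi ^ 2 * H) = X * VV (a ω) X H - 6 / Real.pi ^ 2 * (H * X) := by
        ring
      rw [this]
      exact h
    -- the bound for the power of X
    obtain ⟨z, hz⟩ : ∃ z : ℝ, z = X ^ δ := ⟨_, rfl⟩
    have hz0 : 0 < z := by rw [hz]; positivity
    have hzy : z ≤ 2 * y := by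
      rw [hz, hy]
      calc X ^ δ ≤ (2 * x) ^ δ := Real.rpow_le_rpow hX0.le hX2 hδ0.le
        _ = 2 ^ δ * x ^ δ := Real.mul_rpow (by norm_num) hx0.le
        _ ≤ 2 * x ^ δ := by
            have : (2 : ℝ) ^ δ ≤ 2 := by
              calc (2 : ℝ) ^ δ ≤ 2 ^ (1 : ℝ) :=
                    Real.rpow_le_rpow_of_exponent_le (by norm_num) (by linarith)
                _ = 2 := Real.rpow_one _
            gcongr
    rw [Real.rpow_neg hX0.le, ← hz] at hlt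
    have h2 : X * ((24 + 24 * C1 + 49 * C2) * H * z⁻¹) < (6 + 6 * C1) * (H * L) :=
      lt_of_lt_of_le (mul_lt_mul_of_pos_left hlt hX0) h1
    have h3 : (6 + 6 * C1) * (H * L) ≤ X * ((24 + 24 * C1) * H * z⁻¹) := by
      have hzi : 1 / (2 * y) ≤ z⁻¹ := by
        rw [one_div]
        exact inv_anti₀ hz0 hzy
      calc (6 + 6 * C1) * (H * L) = x * ((24 + 24 * C1) * H * (1 / (2 * y))) := by
            rw [hL]; field_simp; ring
        _ ≤ X * ((24 + 24 * C1) * H * z⁻¹) := by gcongr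
    have h4 : X * ((24 + 24 * C1) * H * z⁻¹) ≤ X * ((24 + 24 * C1 + 49 * C2) * H * z⁻¹) := by
      have h5 : 24 + 24 * C1 ≤ 24 + 24 * C1 + 49 * C2 := by linarith
      have h6 : 0 ≤ H * z⁻¹ := by positivity
      have h7 := mul_le_mul_of_nonneg_right h5 h6
      have h8 := mul_le_mul_of_nonneg_left h7 hX0.le
      calc X * ((24 + 24 * C1) * H * z⁻¹) = X * ((24 + 24 * C1) * (H * z⁻¹)) := by ring
        _ ≤ X * ((24 + 24 * C1 + 49 * C2) * (H * z⁻¹)) := h8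
        _ = _ := by ring
    linarith
  -- the measure
  have hlogJ : 1 + Real.log J ≤ C2 * y ^ 4 := by
    have h1 : Real.log J ≤ 1 + Real.log x := by
      rcases Nat.eq_zero_or_pos J with h | h
      · rw [h, Nat.cast_zero, Real.log_zero]
        have := Real.log_nonneg hx1
        linarith
      · have hJ0 : (0 : ℝ) < J := by exact_mod_cast h
        have hJ2 : (J : ℝ) ≤ 2 * x := by rw [hx]; exact_mod_cast hJN
        calc Real.log J ≤ Real.log (2 * x) := Real.log_le_log hJ0 hJ2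
          _ = Real.log 2 + Real.log x := Real.log_mul (by norm_num) hx0.ne'
          _ ≤ 1 + Real.log x := by
              have := Real.log_two_lt_d9
              linarith
    have h2 : Real.log x ≤ y ^ 4 / (4 * δ) := by
      rw [← e5]
      exact Real.log_le_rpow_div hx0.le (by positivity)
    have h3 : 1 ≤ y ^ 4 := one_le_pow₀ hy1
    rw [hC2]
    calc 1 + Real.log J ≤ 2 + y ^ 4 / (4 * δ) := by linarith
      _ ≤ 2 * y ^ 4 + y ^ 4 / (4 * δ) := by linarith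
      _ = (2 + 1 / (4 * δ)) * y ^ 4 := by ring
  have hW : 0 ≤ M * x ^ (2 - κ) := by positivity
  have hb := bad_card (ν := ν) hm ha1 (N := N) (J := J) hMOM hW hL0 hg1
  have hK : 6 * (N : ℝ) / (g : ℝ) + 1 ≤ 7 * y ^ 2 := by
    rw [← hx]
    have h1 : 6 * x / (g : ℝ) ≤ 6 * y ^ 2 := by
      rw [div_le_iff₀ (by linarith)]
      calc 6 * x = 6 * y ^ 2 * (x / y ^ 2) := by field_simp
        _ ≤ 6 * y ^ 2 * (g : ℝ) := by gcongr
    have h3 : 1 ≤ y ^ 2 := one_le_pow₀ hy1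
    linarith
  have hlog : 0 ≤ Real.log J := Real.log_natCast_nonneg J
  have hfin : ν.real (Bad a N g J L) ≤ (24 + 24 * C1 + 49 * C2) * M * x ^ (-(κ / 2)) := by
    refine hb.trans ?_
    calc (6 * (N : ℝ) / (g : ℝ) + 1) ^ 2 * ((1 + Real.log J) * (M * x ^ (2 - κ)) / L ^ 2)
        ≤ (7 * y ^ 2) ^ 2 * ((C2 * y ^ 4) * (M * x ^ (2 - κ)) / L ^ 2) := by
          gcongr
      _ = 49 / 4 * C2 * M * (y ^ 10)⁻¹ := by
          rw [e2, hL]
          field_simp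
          ring
      _ ≤ (24 + 24 * C1 + 49 * C2) * M * (y ^ 10)⁻¹ := by
          have h5 : 49 / 4 * C2 ≤ 24 + 24 * C1 + 49 * C2 := by linarith
          have h6 : 0 ≤ M * (y ^ 10)⁻¹ := by positivity
          have h7 := mul_le_mul_of_nonneg_right h5 h6
          calc 49 / 4 * C2 * M * (y ^ 10)⁻¹ = 49 / 4 * C2 * (M * (y ^ 10)⁻¹) := by ring
            _ ≤ (24 + 24 * C1 + 49 * C2) * (M * (y ^ 10)⁻¹) := h7
            _ = _ := by ring
      _ = _ := by rw [e4]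
  calc ν {ω | ∃ X H : ℝ, x ≤ X ∧ X ≤ 2 * x ∧ 1 ≤ H ∧ H ≤ X ∧ ⌊H⌋₊ ≤ J ∧
        (24 + 24 * C1 + 49 * C2) * H * X ^ (-δ) < |VV (a ω) X H - 6 / Real.pi ^ 2 * H|}
      ≤ ν (Bad a N g J L) := measure_mono hsub
    _ = ENNReal.ofReal (ν.real (Bad a N g J L)) := (ofReal_measureReal (measure_ne_top ν _)).symm
    _ ≤ _ := ENNReal.ofReal_le_ofReal hfin

end Pool.Agent.K1H40.GT
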